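import Pool.Agent.H42.XCut

namespace Pool.Agent.Results.MP_73a625_co.Countable

open Pool.Agent.H42.XCut

theorem result : ∃ C : Set (Set ℕ), CrossCut C ∧ ¬ Pool.Agent.H42.XCut.Trivial C ∧
    ∀ A ∈ C, A.Infinite ∧ Aᶜ.Infinite := by
  obtain ⟨C, h1, h2⟩ := Pool.Agent.H42.XCut.main
  refine ⟨C, h1, ?_, h2⟩
  rintro ⟨k, h | h⟩
  · have : Set.Iio k ∈ C := by
      rw [h, Set.mem_ofPred_eq, ← Finset.coe_range, Set.encard_coe_eq_coe_finsetCard]; simp
    exact (h2 _ this).1 (Set.finite_Iio k)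
  · have : Set.Iio k ∈ compl '' C := by
      rw [h, Set.mem_ofPred_eq, ← Finset.coe_range, Set.encard_coe_eq_coe_finsetCard]; simp
    obtain ⟨A, hA, e⟩ := this
    exact (h2 A hA).2 (e ▸ Set.finite_Iio k)

end Pool.Agent.Results.MP_73a625_co.Countable
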